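import Pool.Agent.Helper99.PG.Goals

/-!
PROJECT C2, target (a): EVHOM and INDEXFILL.
-/

namespace Pool.Agent.Helper49.PG

open Pool.Agent.Helper36.SC Pool.Agent.Helper37.Arb Pool.Agent.Helper52.C2 Pool.Agent.Helper99.PG
open scoped Classical

theorem ev_add (f g : LaurentPolynomial ℝ) (x : ℝ) : ev (f + g) x = ev f x + ev g x := by
  unfold ev
  rw [AddMonoidAlgebra.coeff_add]
  exact Finsupp.sum_add_index' (fun _ => zero_mul _) (fun _ _ _ => add_mul _ _ _)

theorem ev_single (a : ℝ) (n : ℤ) (x : ℝ) :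
    ev (LaurentPolynomial.C a * LaurentPolynomial.T n) x = a * x ^ n := by
  rw [← LaurentPolynomial.single_eq_C_mul_T]
  unfold ev
  rw [AddMonoidAlgebra.coeff_single]
  exact Finsupp.sum_single_index (zero_mul _)

/-- EVHOM. -/
theorem evHom : GoalEvHom := by
  intro x hx
  have hT : ∀ n : ℤ, LaurentPolynomial.eval₂ (RingHom.id ℝ) (Units.mk0 x hx.ne')
      (LaurentPolynomial.T n) = x ^ n := by
    intro n
    rw [LaurentPolynomial.eval₂_T]
    simp
  refine ⟨LaurentPolynomial.eval₂ (RingHom.id ℝ) (Units.mk0 x hx.ne'), fun f => ?_, hT⟩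
  induction f using LaurentPolynomial.induction_on' with
  | add p q hp hq => rw [map_add, hp, hq, ev_add]
  | C_mul_T n a =>
    rw [ev_single, map_mul, hT, LaurentPolynomial.eval₂_C]
    simp

/-- INDEXFILL. -/
theorem indexFill : GoalIndexFill := by
  intro V _ _ S M hM
  choose k hk using hM
  refine ⟨fun x => k x.1 x.2, ?_, ?_, ?_, ?_⟩
  · rintro ⟨v, y⟩
    change k ((mv (Equiv.removeNone S.D.underNext) (fun v => (M v).l) ⟨v, y⟩).1)
        ((M _).D.underNext (mv (Equiv.removeNone S.D.underNext) (fun v => (M v).l) ⟨v, y⟩).2) -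
        (if (M _).D.pos ((M _).D.underNext
          (mv (Equiv.removeNone S.D.underNext) (fun v => (M v).l) ⟨v, y⟩).2) then 0 else 1) =
        k v y - (if (M v).D.pos y then 0 else 1)
    rw [(hk _).hU]
    by_cases h : y = (M v).l
    · subst h
      rw [mv_mark, (hk _).hl]
      exact (hk v).hl.symm
    · rw [mv_ne _ _ _ _ h]
  · rintro ⟨v, y⟩
    change k ((mv (Equiv.removeNone S.D.overNext) (fun v => (M v).r) ⟨v, y⟩).1)
        ((M _).D.overNext (mv (Equiv.removeNone S.D.overNext) (fun v => (M v).r) ⟨v, y⟩).2) +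
        (if (M _).D.pos ((M _).D.overNext
          (mv (Equiv.removeNone S.D.overNext) (fun v => (M v).r) ⟨v, y⟩).2) then 0 else 1) =
        k v y + (if (M v).D.pos y then 0 else 1)
    rw [(hk _).hO]
    have hr : ∀ v, k v (M v).r + (if (M v).D.pos (M v).r then 0 else 1) = 0 := by
      intro v
      have := (hk v).hr
      simpa using this
    by_cases h : y = (M v).r
    · subst h
      rw [mv_mark, hr]
      exact (hr _).symm
    · rw [mv_ne _ _ _ _ h]
  · exact (hk S.l).hl
  · exact (hk S.r).hr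

end Pool.Agent.Helper49.PG
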